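import Mathlib

/-!
Stretching short disjoint hairs by a homeomorphism fixing a closed set pointwise.
-/

set_option autoImplicit false

namespace Pool.Agent.V5helper6.Stretch

open Set Metric Topology

variable {E : Type*} [NormedAddCommGroup E] [NormedSpace ℝ E] [CompleteSpace E]

/-- A perturbation of the identity by a Lipschitz map with constant at most `1/2` is a
homeomorphism. -/
theorem exists_homeo_of_lipschitz (g : E → E) (hg : ∀ p q, ‖g p - g q‖ ≤ (1 / 2 : ℝ) * ‖p - q‖) :
    ∃ h : E ≃ₜ E, ∀ p, h p = p + g p := by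
  have hA : ApproximatesLinearOn (fun p => p + g p)
      ((ContinuousLinearEquiv.refl ℝ E : E ≃L[ℝ] E) : E →L[ℝ] E) univ (1 / 2 : NNReal) := by
    intro p _ q _
    have e : p + g p - (q + g q) - ((ContinuousLinearEquiv.refl ℝ E : E ≃L[ℝ] E) : E →L[ℝ] E)
        (p - q) = g p - g q := by
      simp
      abel
    rw [e]
    have := hg p q
    simpa using this
  have hc : Subsingleton E ∨ (1 / 2 : NNReal) <
      ‖(((ContinuousLinearEquiv.refl ℝ E : E ≃L[ℝ] E).symm : E ≃L[ℝ] E) : E →L[ℝ] E)‖₊⁻¹ := by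
    rcases subsingleton_or_nontrivial E with hs | hs
    · exact Or.inl hs
    · right
      have : ‖(((ContinuousLinearEquiv.refl ℝ E : E ≃L[ℝ] E).symm : E ≃L[ℝ] E) : E →L[ℝ] E)‖₊
          = 1 := by
        have e : (((ContinuousLinearEquiv.refl ℝ E : E ≃L[ℝ] E).symm : E ≃L[ℝ] E) : E →L[ℝ] E)
          = ContinuousLinearMap.id ℝ E := by
          ext x; simp
        rw [e]
        exact ContinuousLinearMap.nnnorm_id
      rw [this]
      rw [inv_one]
      rw [← NNReal.coe_lt_coe]
      norm_num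
  refine ⟨ApproximatesLinearOn.toHomeomorph (fun p => p + g p) hA hc, fun p => rfl⟩

/-- the bump at `c` of radius `r` -/
noncomputable def bump (c : E) (r : ℝ) (p : E) : ℝ := max 0 (1 - dist p c / r)

omit [NormedSpace ℝ E] [CompleteSpace E] in
theorem bump_lip (c : E) {r : ℝ} (hr : 0 < r) (p q : E) :
    |bump c r p - bump c r q| ≤ ‖p - q‖ / r := by
  unfold bump
  have h1 : |max 0 (1 - dist p c / r) - max 0 (1 - dist q c / r)| ≤
      |(1 - dist p c / r) - (1 - dist q c / r)| := by
    have := abs_max_sub_max_le_abs (1 - dist p c / r) (1 - dist q c / r) 0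
    rw [max_comm 0, max_comm 0]
    exact this
  refine h1.trans ?_
  have e : (1 - dist p c / r) - (1 - dist q c / r) = (dist q c - dist p c) / r := by ring
  rw [e, abs_div, abs_of_pos hr]
  apply div_le_div_of_nonneg_right _ hr.le
  have := abs_dist_sub_le q p c
  rwa [dist_comm q p, dist_eq_norm p q] at this

omit [NormedSpace ℝ E] [CompleteSpace E] in
theorem bump_self (c : E) (r : ℝ) : bump c r c = 1 := by
  simp [bump]

omit [NormedSpace ℝ E] [CompleteSpace E] in
theorem bump_zero (c : E) {r : ℝ} (hr : 0 < r) {p : E} (h : p ∉ ball c r) : bump c r p = 0 := by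
  unfold bump
  rw [mem_ball, not_lt] at h
  apply max_eq_left
  have : 1 ≤ dist p c / r := by rwa [le_div_iff₀ hr, one_mul]
  linarith

/-- the relation between two lengths -/
def Rel {ι : Type*} (F : Set E) (x d : ι → E) (a b : ℝ) : Prop :=
  ∃ h : E ≃ₜ E, (∀ p ∈ F, h p = p) ∧ (∀ i, h (x i + a • d i) = x i + b • d i) ∧
    ∀ i, h '' segment ℝ (x i) (x i + a • d i) = segment ℝ (x i) (x i + b • d i)

omit [CompleteSpace E] in
theorem Rel.symm {ι : Type*} {F : Set E} {x d : ι → E} {a b : ℝ} (h : Rel F x d a b) :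
    Rel F x d b a := by
  obtain ⟨h, h1, h2, h3⟩ := h
  refine ⟨h.symm, ?_, ?_, ?_⟩
  · intro p hp
    rw [Homeomorph.symm_apply_eq, h1 p hp]
  · intro i
    rw [Homeomorph.symm_apply_eq, h2 i]
  · intro i
    rw [← h3 i, ← image_comp]
    simp

omit [CompleteSpace E] in
theorem Rel.trans {ι : Type*} {F : Set E} {x d : ι → E} {a b c : ℝ} (h : Rel F x d a b)
    (h' : Rel F x d b c) : Rel F x d a c := by
  obtain ⟨h, h1, h2, h3⟩ := h
  obtain ⟨g, g1, g2, g3⟩ := h'
  refine ⟨h.trans g, ?_, ?_, ?_⟩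
  · intro p hp
    simp [h1 p hp, g1 p hp]
  · intro i
    simp [h2 i, g2 i]
  · intro i
    rw [← g3 i, ← h3 i, ← image_comp]
    rfl

omit [CompleteSpace E] in
theorem mem_hair {x d : E} {a : ℝ} (ha : 0 ≤ a) {p : E} :
    p ∈ segment ℝ x (x + a • d) ↔ ∃ u, 0 ≤ u ∧ u ≤ a ∧ p = x + u • d := by
  rw [segment_eq_image']
  constructor
  · rintro ⟨t, ⟨h0, h1⟩, rfl⟩
    refine ⟨t * a, by positivity, by nlinarith, ?_⟩
    simp [smul_smul]
  · rintro ⟨u, h0, h1, rfl⟩
    rcases eq_or_lt_of_le ha with h | h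
    · subst h
      have : u = 0 := le_antisymm h1 h0
      subst this
      exact ⟨0, by simp, by simp⟩
    · refine ⟨u / a, ⟨by positivity, by rw [div_le_one h]; exact h1⟩, ?_⟩
      simp only [add_sub_cancel_left, smul_smul]
      rw [div_mul_cancel₀ _ h.ne']

/-- local step -/
theorem local_step {ι : Type*} [Fintype ι] {F : Set E} (hF : IsClosed F) {x d : ι → E} {δ : ℝ}
    (hx : ∀ i, x i ∈ F)
    (h1 : ∀ i, ∀ s : ℝ, 0 < s → s < δ → x i + s • d i ∉ F)
    (h2 : ∀ i j, i ≠ j → ∀ s t : ℝ, 0 ≤ s → s < δ → 0 ≤ t → t < δ → x i + s • d i ≠ x j + t • d j)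
    {a : ℝ} (ha0 : 0 < a) (haδ : a < δ) :
    ∃ η : ℝ, 0 < η ∧ ∀ b : ℝ, |b - a| < η → Rel F x d a b := by
  classical
  set a' := (a + δ) / 2 with ha'
  have haa' : a < a' := by rw [ha']; linarith
  have ha'δ : a' < δ := by rw [ha']; linarith
  have ha'0 : 0 < a' := by linarith
  -- the closed obstacle of the hair `i`
  set K : ι → Set E := fun i => F ∪ ⋃ j ∈ {j | j ≠ i}, segment ℝ (x j) (x j + a' • d j) with hK
  have hKc : ∀ i, IsClosed (K i) := by
    intro i
    apply hF.union
    apply Set.Finite.isClosed_biUnion (Set.toFinite _)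
    intro j _
    rw [segment_eq_image']
    exact (isCompact_Icc.image (by fun_prop)).isClosed
  have hT : ∀ i, x i + a • d i ∉ K i := by
    intro i hi
    rcases hi with hi | hi
    · exact h1 i a ha0 haδ hi
    · simp only [mem_ofPred_eq, mem_iUnion] at hi
      obtain ⟨j, hj, hi⟩ := hi
      rw [mem_hair ha'0.le] at hi
      obtain ⟨u, hu0, hu1, hu⟩ := hi
      exact h2 i j (Ne.symm hj) a u ha0.le haδ hu0 (by linarith) hu
  have hr : ∀ i, ∃ r : ℝ, 0 < r ∧ ∀ p ∈ K i, p ∉ ball (x i + a • d i) r := by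
    intro i
    obtain ⟨r, hr, hb⟩ := Metric.isOpen_iff.1 (hKc i).isOpen_compl _ (hT i)
    exact ⟨r, hr, fun p hp hpb => hb hpb hp⟩
  choose r hr0 hrK using hr
  set L : ℝ := ∑ i, ‖d i‖ / r i with hL
  have hL0 : 0 ≤ L := Finset.sum_nonneg fun i _ => div_nonneg (norm_nonneg _) (hr0 i).le
  set g : E → E := fun p => ∑ i, bump (x i + a • d i) (r i) p • d i with hg
  have hgL : ∀ p q, ‖g p - g q‖ ≤ L * ‖p - q‖ := by
    intro p q
    rw [hg]
    simp only
    rw [← Finset.sum_sub_distrib]
    refine (norm_sum_le _ _).trans ?_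
    rw [hL, Finset.sum_mul]
    apply Finset.sum_le_sum
    intro i _
    rw [← sub_smul, norm_smul, Real.norm_eq_abs]
    have := bump_lip (x i + a • d i) (hr0 i) p q
    calc _ ≤ ‖p - q‖ / r i * ‖d i‖ := mul_le_mul_of_nonneg_right this (norm_nonneg _)
      _ = _ := by ring
  refine ⟨min (min a (a' - a)) (1 / (2 * (L + 1))), ?_, ?_⟩
  · refine lt_min (lt_min ha0 (by linarith)) (by positivity)
  · intro b hb
    have hb1 : |b - a| < a := lt_of_lt_of_le hb (le_trans (min_le_left _ _) (min_le_left _ _))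
    have hb2 : |b - a| < a' - a := lt_of_lt_of_le hb (le_trans (min_le_left _ _) (min_le_right _ _))
    have hb3 : |b - a| < 1 / (2 * (L + 1)) := lt_of_lt_of_le hb (min_le_right _ _)
    have hb0 : 0 < b := by
      have := (abs_lt.1 hb1).1
      linarith
    have hba' : b < a' := by
      have := (abs_lt.1 hb2).2
      linarith
    have hsL : |b - a| * L ≤ 1 / 2 := by
      have h5 : |b - a| * (L + 1) ≤ 1 / 2 := by
        rw [lt_div_iff₀ (by positivity)] at hb3
        linarith
      nlinarith [abs_nonneg (b - a)]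
    obtain ⟨h, hh⟩ := exists_homeo_of_lipschitz (fun p => (b - a) • g p) (by
      intro p q
      rw [← smul_sub, norm_smul, Real.norm_eq_abs]
      calc |b - a| * ‖g p - g q‖ ≤ |b - a| * (L * ‖p - q‖) :=
            mul_le_mul_of_nonneg_left (hgL p q) (abs_nonneg _)
        _ = (|b - a| * L) * ‖p - q‖ := by ring
        _ ≤ 1 / 2 * ‖p - q‖ := mul_le_mul_of_nonneg_right hsL (norm_nonneg _))
    -- on the hair `i` only the bump `i` acts
    have hgi : ∀ i u, 0 ≤ u → u ≤ a' → g (x i + u • d i) =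
        bump (x i + a • d i) (r i) (x i + u • d i) • d i := by
      intro i u hu0 hu1
      rw [hg]
      simp only
      apply Finset.sum_eq_single
      · intro j _ hj
        rw [bump_zero _ (hr0 j), zero_smul]
        apply hrK j
        right
        simp only [mem_ofPred_eq, mem_iUnion]
        exact ⟨i, Ne.symm hj, (mem_hair ha'0.le).2 ⟨u, hu0, hu1, rfl⟩⟩
      · intro hi
        exact absurd (Finset.mem_univ i) hi
    have hφ : ∀ i u, 0 ≤ u → u ≤ a' → h (x i + u • d i) =
        x i + (u + (b - a) * bump (x i + a • d i) (r i) (x i + u • d i)) • d i := by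
      intro i u hu0 hu1
      rw [hh, hgi i u hu0 hu1]
      module
    refine ⟨h, ?_, ?_, ?_⟩
    · intro p hp
      rw [hh]
      have : g p = 0 := by
        rw [hg]
        apply Finset.sum_eq_zero
        intro i _
        rw [bump_zero _ (hr0 i), zero_smul]
        exact hrK i p (Or.inl hp)
      rw [this, smul_zero, add_zero]
    · intro i
      rw [hφ i a ha0.le haa'.le, bump_self]
      congr 2
      ring
    · intro i
      set φ : ℝ → ℝ := fun u => u + (b - a) * bump (x i + a • d i) (r i) (x i + u • d i) with hφd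
      have hφ0 : φ 0 = 0 := by
        simp only [hφd, zero_smul, add_zero]
        rw [bump_zero _ (hr0 i) (hrK i _ (Or.inl (hx i)))]
        ring
      have hφa : φ a = b := by
        simp only [hφd]
        rw [bump_self]
        ring
      have hφc : Continuous φ := by
        simp only [hφd, bump]
        fun_prop
      have hmono : ∀ u v, u ≤ v → φ u ≤ φ v := by
        intro u v huv
        have h6 := bump_lip (x i + a • d i) (hr0 i) (x i + v • d i) (x i + u • d i)
        have h7 : ‖x i + v • d i - (x i + u • d i)‖ = (v - u) * ‖d i‖ := by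
          have : x i + v • d i - (x i + u • d i) = (v - u) • d i := by module
          rw [this, norm_smul, Real.norm_eq_abs, abs_of_nonneg (by linarith)]
        rw [h7] at h6
        have h8 : |(b - a) * (bump (x i + a • d i) (r i) (x i + v • d i) -
            bump (x i + a • d i) (r i) (x i + u • d i))| ≤ 1 / 2 * (v - u) := by
          rw [abs_mul]
          calc _ ≤ |b - a| * ((v - u) * ‖d i‖ / r i) := mul_le_mul_of_nonneg_left h6 (abs_nonneg _)
            _ = |b - a| * (‖d i‖ / r i) * (v - u) := by ring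
            _ ≤ |b - a| * L * (v - u) := by
              apply mul_le_mul_of_nonneg_right _ (by linarith)
              apply mul_le_mul_of_nonneg_left _ (abs_nonneg _)
              exact Finset.single_le_sum (f := fun i => ‖d i‖ / r i)
                (fun i _ => div_nonneg (norm_nonneg _) (hr0 i).le) (Finset.mem_univ i)
            _ ≤ 1 / 2 * (v - u) := mul_le_mul_of_nonneg_right hsL (by linarith)
        have h9 := (abs_le.1 h8).1
        simp only [hφd]
        nlinarith
      ext p
      constructor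
      · rintro ⟨q, hq, rfl⟩
        rw [mem_hair ha0.le] at hq
        obtain ⟨u, hu0, hu1, rfl⟩ := hq
        rw [mem_hair hb0.le]
        refine ⟨φ u, ?_, ?_, hφ i u hu0 (by linarith)⟩
        · rw [← hφ0]; exact hmono _ _ hu0
        · rw [← hφa]; exact hmono _ _ hu1
      · intro hp
        rw [mem_hair hb0.le] at hp
        obtain ⟨w, hw0, hw1, rfl⟩ := hp
        have hw : w ∈ Icc (φ 0) (φ a) := ⟨by rw [hφ0]; exact hw0, by rw [hφa]; exact hw1⟩
        obtain ⟨u, ⟨hu0, hu1⟩, rfl⟩ := intermediate_value_Icc ha0.le hφc.continuousOn hw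
        exact ⟨x i + u • d i, (mem_hair ha0.le).2 ⟨u, hu0, hu1, rfl⟩, hφ i u hu0 (by linarith)⟩

/-- all lengths in the range are related -/
theorem rel_all {ι : Type*} [Fintype ι] {F : Set E} (hF : IsClosed F) {x d : ι → E} {δ : ℝ}
    (hx : ∀ i, x i ∈ F)
    (h1 : ∀ i, ∀ s : ℝ, 0 < s → s < δ → x i + s • d i ∉ F)
    (h2 : ∀ i j, i ≠ j → ∀ s t : ℝ, 0 ≤ s → s < δ → 0 ≤ t → t < δ → x i + s • d i ≠ x j + t • d j)
    {a b : ℝ} (ha0 : 0 < a) (haδ : a < δ) (hb0 : 0 < b) (hbδ : b < δ) : Rel F x d a b := by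
  refine IsPreconnected.induction₂ (s := Ioo (0 : ℝ) δ) isPreconnected_Ioo (Rel F x d) ?_
    (fun a b c _ _ _ h h' => h.trans h') (fun a b _ _ h => h.symm) ⟨ha0, haδ⟩ ⟨hb0, hbδ⟩
  intro u hu
  obtain ⟨η, hη, hr⟩ := local_step hF hx h1 h2 hu.1 hu.2
  apply eventually_nhdsWithin_of_eventually_nhds
  filter_upwards [Metric.ball_mem_nhds u hη] with v hv
  exact hr v (by rwa [mem_ball, Real.dist_eq] at hv)

end Pool.Agent.V5helper6.Stretch
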