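import Mathlib
import Pool.Agent.V5helper6.Stretch
import Pool.Agent.Helper337.PolygonProofC

/-!
The two 14-gons of `Helper337` have the same pattern in the strong sense of the frozen statement:
for all small `a`, `b` some homeomorphism of the plane carries the first with extra short edges of
size `a` onto the second with extra short edges of size `b`, nodes onto nodes.
-/

set_option autoImplicit false

namespace Pool.Agent.V5helper6.Polygon2

open Set Pool.Agent.Helper337.PolygonPattern Pool.Agent.V5helper6.Stretch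
open scoped Topology

/-- the union of the edges -/
def FF (x : ZMod 14 → Plane) : Set Plane := ⋃ i, edge x i

/-- the direction of the extra edge -/
noncomputable def dd (x : ZMod 14 → Plane) (i : ZMod 14) : Plane := (2 : ℝ) • x i - x (i - 1) - x (i + 1)

theorem edge_closed (x : ZMod 14 → Plane) (i : ZMod 14) : IsClosed (edge x i) := by
  unfold edge
  rw [segment_eq_image']
  exact (isCompact_Icc.image (by fun_prop)).isClosed

theorem FF_closed (x : ZMod 14 → Plane) : IsClosed (FF x) :=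
  isClosed_iUnion_of_finite (edge_closed x)

theorem mem_edge_self (x : ZMod 14 → Plane) (i : ZMod 14) : x i ∈ edge x i :=
  left_mem_segment _ _ _

theorem mem_edge_pred (x : ZMod 14 → Plane) (i : ZMod 14) : x i ∈ edge x (i - 1) := by
  unfold edge
  rw [sub_add_cancel]
  exact right_mem_segment _ _ _

theorem mem_FF (x : ZMod 14 → Plane) (i : ZMod 14) : x i ∈ FF x :=
  mem_iUnion.2 ⟨i, mem_edge_self x i⟩

theorem zfact : ∀ i : ZMod 14, i ≠ i - 1 := by decide
theorem zfact2 : ∀ i j : ZMod 14, i ≠ j → (j ≠ i ∧ j ≠ i - 1) ∨ (j - 1 ≠ i ∧ j - 1 ≠ i - 1) := by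
  decide

theorem not_mem_edge {x : ZMod 14 → Plane} (ho : Ordinary x) {i j : ZMod 14} (h1 : j ≠ i)
    (h2 : j ≠ i - 1) : x i ∉ edge x j := by
  intro h
  exact ho (x i) i (i - 1) j (zfact i) (Ne.symm h2) (Ne.symm h1)
    ⟨mem_edge_self x i, mem_edge_pred x i, h⟩

theorem vertex_inj {x : ZMod 14 → Plane} (ho : Ordinary x) {i j : ZMod 14} (h : i ≠ j) :
    x i ≠ x j := by
  intro he
  rcases zfact2 i j h with ⟨h1, h2⟩ | ⟨h1, h2⟩
  · exact not_mem_edge ho h1 h2 (he ▸ mem_edge_self x j)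
  · exact not_mem_edge ho h1 h2 (he ▸ mem_edge_pred x j)

/-- the extra edge leaves the two edges at its vertex at once -/
theorem hair_off_adjacent {x : ZMod 14 → Plane} (hp : ∀ i, orR (x (i - 1)) (x i) (x (i + 1)) ≠ 0)
    (i : ZMod 14) {s : ℝ} (hs : s ≠ 0) :
    x i + s • dd x i ∉ edge x i ∧ x i + s • dd x i ∉ edge x (i - 1) := by
  constructor
  · intro h
    have h1 := orR_self _ _ _ h
    have h2 : orR (x i) (x (i + 1)) (x i + s • dd x i) =
        s * orR (x (i - 1)) (x i) (x (i + 1)) * (-1) := by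
      unfold orR dd
      simp only [Prod.fst_add, Prod.snd_add, Prod.smul_fst, Prod.smul_snd, smul_eq_mul,
        Prod.fst_sub, Prod.snd_sub]
      ring
    rw [h2] at h1
    simp only [mul_neg, mul_one, neg_eq_zero, mul_eq_zero] at h1
    rcases h1 with h1 | h1
    · exact hs h1
    · exact hp i h1
  · intro h
    unfold edge at h
    rw [sub_add_cancel] at h
    have h1 := orR_self _ _ _ h
    have h2 : orR (x (i - 1)) (x i) (x i + s • dd x i) =
        s * orR (x (i - 1)) (x i) (x (i + 1)) * (-1) := by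
      unfold orR dd
      simp only [Prod.fst_add, Prod.snd_add, Prod.smul_fst, Prod.smul_snd, smul_eq_mul,
        Prod.fst_sub, Prod.snd_sub]
      ring
    rw [h2] at h1
    simp only [mul_neg, mul_one, neg_eq_zero, mul_eq_zero] at h1
    rcases h1 with h1 | h1
    · exact hs h1
    · exact hp i h1

/-- a uniform bound for the lengths -/
theorem exists_delta {x : ZMod 14 → Plane} (ho : Ordinary x)
    (hp : ∀ i, orR (x (i - 1)) (x i) (x (i + 1)) ≠ 0) :
    ∃ δ : ℝ, 0 < δ ∧ (∀ i, ∀ s : ℝ, 0 < s → s < δ → x i + s • dd x i ∉ FF x) ∧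
      ∀ i j, i ≠ j → ∀ s t : ℝ, 0 ≤ s → s < δ → 0 ≤ t → t < δ →
        x i + s • dd x i ≠ x j + t • dd x j := by
  have e1 : ∀ᶠ s : ℝ in 𝓝 0, ∀ i j : ZMod 14, j ≠ i → j ≠ i - 1 → x i + s • dd x i ∉ edge x j := by
    rw [Filter.eventually_all]
    intro i
    rw [Filter.eventually_all]
    intro j
    by_cases h : j ≠ i ∧ j ≠ i - 1
    · have hc : Filter.Tendsto (fun s : ℝ => x i + s • dd x i) (𝓝 0) (𝓝 (x i)) := by
        have : Continuous (fun s : ℝ => x i + s • dd x i) := by fun_prop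
        have h := this.tendsto 0
        simpa using h
      have := hc.eventually ((edge_closed x j).isOpen_compl.mem_nhds (not_mem_edge ho h.1 h.2))
      filter_upwards [this] with s hs _ _
      exact hs
    · filter_upwards with s h1 h2
      exact absurd ⟨h1, h2⟩ h
  have e2 : ∀ᶠ q : ℝ × ℝ in 𝓝 (0, 0), ∀ i j : ZMod 14, i ≠ j →
      x i + q.1 • dd x i ≠ x j + q.2 • dd x j := by
    rw [Filter.eventually_all]
    intro i
    rw [Filter.eventually_all]
    intro j
    by_cases h : i ≠ j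
    · have hc : Continuous (fun q : ℝ × ℝ => (x i + q.1 • dd x i) - (x j + q.2 • dd x j)) := by
        fun_prop
      have h1 := hc.tendsto (0, 0)
      have h2 : (x i + ((0 : ℝ), (0 : ℝ)).1 • dd x i) - (x j + ((0 : ℝ), (0 : ℝ)).2 • dd x j) ≠ 0 := by
        simp only [zero_smul, add_zero]
        exact sub_ne_zero.2 (vertex_inj ho h)
      have h3 := h1.eventually (isOpen_ne.mem_nhds h2)
      filter_upwards [h3] with q hq _
      exact sub_ne_zero.1 hq
    · filter_upwards with q h1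
      exact absurd h1 h
  rw [Metric.eventually_nhds_iff] at e1 e2
  obtain ⟨δ₁, hδ₁, h1⟩ := e1
  obtain ⟨δ₂, hδ₂, h2⟩ := e2
  refine ⟨min δ₁ δ₂, lt_min hδ₁ hδ₂, ?_, ?_⟩
  · intro i s hs0 hs1 hmem
    obtain ⟨j, hj⟩ := mem_iUnion.1 hmem
    have hadj := hair_off_adjacent hp i hs0.ne'
    by_cases hji : j = i
    · subst hji; exact hadj.1 hj
    by_cases hji' : j = i - 1
    · subst hji'; exact hadj.2 hj
    refine h1 ?_ i j hji hji' hj
    rw [Real.dist_eq, sub_zero, abs_of_pos hs0]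
    exact lt_of_lt_of_le hs1 (min_le_left _ _)
  · intro i j hij s t hs0 hs1 ht0 ht1
    have := h2 (y := (s, t)) (by
      rw [Prod.dist_eq, Real.dist_eq, Real.dist_eq]
      simp only [sub_zero, abs_of_nonneg hs0, abs_of_nonneg ht0]
      exact max_lt (lt_of_lt_of_le hs1 (min_le_right _ _)) (lt_of_lt_of_le ht1 (min_le_right _ _)))
      i j hij
    exact this

theorem orXX : ∀ i, orR (xx (i - 1)) (xx i) (xx (i + 1)) ≠ 0 := by
  intro i
  unfold xx
  rw [orR_toR]
  have : orr (XZ (i - 1)) (XZ i) (XZ (i + 1)) ≠ 0 := by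
    revert i; decide +kernel
  exact_mod_cast this

/-- the map with the extra edges -/
noncomputable def mapSet (x : ZMod 14 → Plane) (ε : ℝ) : Set Plane :=
  (⋃ i, edge x i) ∪ ⋃ i, segment ℝ (x i) (x i + ε • dd x i)

/-- the nodes -/
noncomputable def nodes (x : ZMod 14 → Plane) (ε : ℝ) : Set Plane :=
  Set.range x ∪ {p : Plane | ∃ i j, i ≠ j ∧ p ∈ edge x i ∧ p ∈ edge x j}
    ∪ Set.range (fun i => x i + ε • dd x i)

theorem image_of_fixed {h : Plane ≃ₜ Plane} {A F : Set Plane} (hf : ∀ p ∈ F, h p = p)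
    (hA : A ⊆ F) : h '' A = A := by
  ext p
  constructor
  · rintro ⟨q, hq, rfl⟩
    rwa [hf q (hA hq)]
  · intro hp
    exact ⟨p, hp, hf p (hA hp)⟩

theorem self_pattern {x : ZMod 14 → Plane} (ho : Ordinary x)
    (hp : ∀ i, orR (x (i - 1)) (x i) (x (i + 1)) ≠ 0) :
    ∃ δ : ℝ, 0 < δ ∧ ∀ a b : ℝ, 0 < a → a < δ → 0 < b → b < δ →
      ∃ h : Plane ≃ₜ Plane, h '' mapSet x a = mapSet x b ∧ h '' nodes x a = nodes x b := by
  obtain ⟨δ, hδ, h1, h2⟩ := exists_delta ho hp
  refine ⟨δ, hδ, fun a b ha0 ha1 hb0 hb1 => ?_⟩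
  obtain ⟨h, hf, ht, hs⟩ := rel_all (FF_closed x) (x := x) (d := dd x) (mem_FF x) h1 h2 ha0 ha1
    hb0 hb1
  refine ⟨h, ?_, ?_⟩
  · unfold mapSet
    have e : h '' (⋃ i, edge x i) = ⋃ i, edge x i := image_of_fixed hf (le_refl (FF x))
    rw [image_union, e, image_iUnion]
    congr 1
    exact iUnion_congr hs
  · unfold nodes
    rw [image_union]
    congr 1
    · apply image_of_fixed hf
      rintro p (⟨i, rfl⟩ | ⟨i, j, -, hi, -⟩)
      · exact mem_FF x i
      · exact mem_iUnion.2 ⟨i, hi⟩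
    · ext p
      constructor
      · rintro ⟨_, ⟨i, rfl⟩, rfl⟩
        exact ⟨i, (ht i).symm⟩
      · rintro ⟨i, rfl⟩
        exact ⟨_, ⟨i, rfl⟩, ht i⟩

theorem tau_tip (ε : ℝ) (i : ZMod 14) :
    tau (xx i + ε • dd xx i) = yy (i + 7) + ε • dd yy (i + 7) := by
  unfold dd
  have h1 : i + 7 - 1 = (i - 1) + 7 := by ring
  have h2 : i + 7 + 1 = (i + 1) + 7 := by ring
  rw [h1, h2, ← tau_xx, ← tau_xx, ← tau_xx]
  simp only [tau_apply]
  apply Prod.ext
  · simp
  · simp; ring

theorem shift_shift (i : ZMod 14) : i + 7 + 7 = i := by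
  revert i; decide +kernel

theorem tau_mapSet (ε : ℝ) : tau '' mapSet xx ε = mapSet yy ε := by
  unfold mapSet
  rw [image_union, image_iUnion, image_iUnion]
  congr 1
  · simp only [tau_edge]
    exact iUnion_shift (fun i => edge yy i)
  · simp only [tau_segment, tau_tip, tau_xx]
    exact iUnion_shift (fun i => segment ℝ (yy i) (yy i + ε • dd yy i))

theorem tau_nodes (ε : ℝ) : tau '' nodes xx ε = nodes yy ε := by
  unfold nodes
  rw [image_union, image_union]
  congr 1
  · congr 1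
    · ext p
      constructor
      · rintro ⟨_, ⟨i, rfl⟩, rfl⟩
        exact ⟨i + 7, (tau_xx i).symm⟩
      · rintro ⟨i, rfl⟩
        exact ⟨xx (i + 7), ⟨i + 7, rfl⟩, by rw [tau_xx, shift_shift]⟩
    · ext p
      constructor
      · rintro ⟨q, ⟨i, j, hij, hi, hj⟩, rfl⟩
        refine ⟨i + 7, j + 7, fun h => hij (add_right_cancel h), ?_, ?_⟩
        · rw [← tau_edge]; exact mem_image_of_mem _ hi
        · rw [← tau_edge]; exact mem_image_of_mem _ hj
      · rintro ⟨i, j, hij, hi, hj⟩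
        have hi' : p ∈ edge yy (i + 7 + 7) := by rw [shift_shift]; exact hi
        have hj' : p ∈ edge yy (j + 7 + 7) := by rw [shift_shift]; exact hj
        rw [← tau_edge] at hi' hj'
        obtain ⟨q, hq, rfl⟩ := hi'
        obtain ⟨q', hq', he⟩ := hj'
        have : q' = q := tau.injective he
        subst this
        exact ⟨q', ⟨i + 7, j + 7, fun h => hij (add_right_cancel h), hq, hq'⟩, rfl⟩
  · ext p
    constructor
    · rintro ⟨_, ⟨i, rfl⟩, rfl⟩
      exact ⟨i + 7, (tau_tip ε i).symm⟩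
    · rintro ⟨i, rfl⟩
      refine ⟨_, ⟨i + 7, rfl⟩, ?_⟩
      simp only
      rw [tau_tip, shift_shift]

theorem pattern_xy :
    ∃ δ : ℝ, 0 < δ ∧ ∀ a b : ℝ, 0 < a → a < δ → 0 < b → b < δ →
      ∃ h : Plane ≃ₜ Plane, h '' mapSet xx a = mapSet yy b ∧ h '' nodes xx a = nodes yy b := by
  obtain ⟨δ, hδ, H⟩ := self_pattern ordinaryX orXX
  refine ⟨δ, hδ, fun a b ha0 ha1 hb0 hb1 => ?_⟩
  obtain ⟨h, h1, h2⟩ := H a b ha0 ha1 hb0 hb1
  refine ⟨h.trans tau, ?_, ?_⟩
  · have e : ∀ A : Set Plane, (h.trans tau) '' A = tau '' (h '' A) := fun A => by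
      rw [← image_comp]; rfl
    rw [e, h1, tau_mapSet]
  · have e : ∀ A : Set Plane, (h.trans tau) '' A = tau '' (h '' A) := fun A => by
      rw [← image_comp]; rfl
    rw [e, h2, tau_nodes]

end Pool.Agent.V5helper6.Polygon2
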