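import Mathlib

set_option autoImplicit false

namespace Pool.Agent.V5helper6.Mixed

open SimpleGraph

variable {V : Type*} {G : SimpleGraph V}

/-- `p` is the parent function of a breadth first search tree with root `r` -/
structure BFS (G : SimpleGraph V) (r : V) (p : V → V) : Prop where
  root : p r = r
  adj : ∀ v, v ≠ r → G.Adj v (p v)
  lev : ∀ v, v ≠ r → G.dist r (p v) + 1 = G.dist r v

/-- non-tree adjacency -/
def NT (G : SimpleGraph V) (p : V → V) (a b : V) : Prop := G.Adj a b ∧ p a ≠ b ∧ p b ≠ a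

lemma NT.symm {p : V → V} {a b : V} (h : NT G p a b) : NT G p b a := ⟨h.1.symm, h.2.2, h.2.1⟩

/-- `s` is a descendant of `v` -/
def Desc (G : SimpleGraph V) (r : V) (p : V → V) (v s : V) : Prop :=
  ∃ k, p^[k] s = v ∧ k + G.dist r v = G.dist r s

section basics

variable {r : V} {p : V → V}

lemma Desc.refl (v : V) : Desc G r p v v := ⟨0, rfl, by simp⟩

lemma Desc.step (B : BFS G r p) {v s : V} (hs : s ≠ r) (h : Desc G r p v (p s)) :
    Desc G r p v s := by
  obtain ⟨k, hk, hl⟩ := h
  refine ⟨k + 1, by rw [Function.iterate_succ_apply]; exact hk, ?_⟩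
  have := B.lev s hs
  omega

lemma Desc.unique {v w s : V} (h1 : Desc G r p v s) (h2 : Desc G r p w s)
    (h : G.dist r v = G.dist r w) : v = w := by
  obtain ⟨k, hk, hl⟩ := h1
  obtain ⟨k', hk', hl'⟩ := h2
  have : k = k' := by omega
  subst this
  rw [← hk, ← hk']

lemma Desc.lev_le {v s : V} (h : Desc G r p v s) : G.dist r v ≤ G.dist r s := by
  obtain ⟨k, hk, hl⟩ := h
  omega

lemma dist_iterate (hc : G.Connected) (B : BFS G r p) (k : ℕ) : ∀ s, G.dist s (p^[k] s) ≤ k := by
  induction k with
  | zero => intro s; simp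
  | succ k ih =>
    intro s
    rw [Function.iterate_succ_apply]
    have h1 := ih (p s)
    have h2 : G.dist s (p s) ≤ 1 := by
      by_cases h : s = r
      · rw [h, B.root]; simp
      · exact (dist_eq_one_iff_adj.mpr (B.adj s h)).le
    have h3 := hc.dist_triangle (u := s) (v := p s) (w := p^[k] (p s))
    omega

lemma lvle (hc : G.Connected) (s v : V) : G.dist r s ≤ G.dist s v + G.dist r v := by
  have := hc.dist_triangle (u := r) (v := v) (w := s)
  rw [G.dist_comm (u := v) (v := s)] at this
  omega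

lemma Desc.dist (hc : G.Connected) (B : BFS G r p) {v s : V} (h : Desc G r p v s) :
    G.dist s v + G.dist r v = G.dist r s := by
  obtain ⟨k, hk, hl⟩ := h
  have h1 := dist_iterate hc B k s
  rw [hk] at h1
  have h2 := lvle (r := r) hc s v
  omega

/-- a geodesic going up which does not end in a descendant has a non-tree edge going down -/
lemma leave (hc : G.Connected) (B : BFS G r p) {v : V} (n : ℕ) : ∀ s, G.dist s v = n →
    G.dist s v + G.dist r v = G.dist r s → ¬ Desc G r p v s →
    ∃ q q', Desc G r p v q ∧ NT G p q q' ∧ G.dist r q' = G.dist r q + 1 ∧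
      G.dist r q < G.dist r s := by
  induction n with
  | zero =>
    intro s h0 _ hd
    have : s = v := (hc.dist_eq_zero_iff).mp h0
    subst this
    exact absurd (Desc.refl s) hd
  | succ n ih =>
    intro s hn hs hd
    -- a neighbour of `s` closer to `v`
    obtain ⟨u, hu, hun⟩ : ∃ u, G.Adj s u ∧ G.dist u v = n := by
      obtain ⟨w, hw⟩ := hc.exists_walk_length_eq_dist s v
      cases w with
      | nil => simp at hw; omega
      | cons h q =>
        rename_i u
        refine ⟨u, h, ?_⟩
        simp at hw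
        have h1 : G.dist u v ≤ q.length := dist_le q
        have h2 := hc.dist_triangle (u := s) (v := u) (w := v)
        have h3 : G.dist s u = 1 := dist_eq_one_iff_adj.mpr h
        omega
    have h1 : G.dist r s ≤ G.dist r u + 1 := by
      have h2 := hc.dist_triangle (u := r) (v := u) (w := s)
      have h3 : G.dist u s = 1 := dist_eq_one_iff_adj.mpr hu.symm
      omega
    have h2 := lvle (r := r) hc u v
    have hlu : G.dist r u + 1 = G.dist r s := by omega
    by_cases hdu : Desc G r p v u
    · refine ⟨u, s, hdu, ⟨hu.symm, ?_, ?_⟩, hlu.symm, by omega⟩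
      · intro h
        by_cases hur : u = r
        · subst hur; rw [B.root] at h; subst h; exact hu.ne rfl
        · have := B.lev u hur
          rw [h] at this; omega
      · intro h
        apply hd
        apply Desc.step B
        · intro hsr; subst hsr; simp at hlu
        · rw [h]; exact hdu
    · obtain ⟨q, q', h3, h4, h5, h6⟩ := ih u hun (by omega) hdu
      exact ⟨q, q', h3, h4, h5, by omega⟩

end basics

section resolving

variable {r : V} {p : V → V}

/-- the data of the main construction -/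
structure Dat (G : SimpleGraph V) (r : V) (p : V → V) (X : Set V) : Prop where
  conn : G.Connected
  bfs : BFS G r p
  sub : ∀ x ∈ X, ∃ y, NT G p x y
  /-- every subtree meets `X` -/
  meet : ∀ v, v ≠ r → ∃ s ∈ X, Desc G r p v s
  /-- a vertex outside of `X` which has a non-tree edge -/
  out : ∀ b y, NT G p b y → b ∉ X → G.dist r y ≤ G.dist r b ∧ y ∈ X ∧
    (∀ z, NT G p b z → z = y) ∧ (∀ s, Desc G r p b s → G.dist s b < G.dist s y) ∧
    (∀ a c, NT G p a c → a ∉ X → a = b)

lemma root_of_lev (hc : G.Connected) {v : V} (h : G.dist r v = 0) : v = r :=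
  ((hc.dist_eq_zero_iff).mp h).symm

lemma factB [Finite V] {X : Set V} (D : Dat G r p X) {v w : V} (hvw : v ≠ w)
    (hl : G.dist r v = G.dist r w) :
    ∃ s ∈ X, (Desc G r p v s ∧ G.dist r s < G.dist s w + G.dist r w) ∨
      (Desc G r p w s ∧ G.dist r s < G.dist s v + G.dist r v) := by
  classical
  have hv : v ≠ r := by
    rintro rfl
    simp at hl
    exact hvw ((D.conn.dist_eq_zero_iff).mp hl.symm)
  obtain ⟨s0, hs0, hd0⟩ := D.meet v hv
  let Z : Set V := {s | s ∈ X ∧ (Desc G r p v s ∨ Desc G r p w s)}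
  have hZ : Z.Nonempty := ⟨s0, hs0, Or.inl hd0⟩
  obtain ⟨s, hsZ, hmin⟩ := Set.exists_min_image Z (fun s => G.dist r s) (Set.toFinite Z) hZ
  have key : ∀ v w : V, v ≠ w → G.dist r v = G.dist r w →
      (∀ q, q ∈ X → (Desc G r p v q ∨ Desc G r p w q) → G.dist r s ≤ G.dist r q) →
      s ∈ X → Desc G r p w s → G.dist r s < G.dist s v + G.dist r v := by
    intro v w hvw hl hmin hsX hd
    by_contra hcon
    have h1 := lvle (r := r) D.conn s v
    have h2 : G.dist s v + G.dist r v = G.dist r s := by omega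
    have h3 : ¬ Desc G r p v s := fun h => hvw (Desc.unique h hd hl)
    obtain ⟨q, q', hq1, hq2, hq3, hq4⟩ := leave D.conn D.bfs _ s rfl h2 h3
    have hqX : q ∈ X := by
      by_contra hqX
      have := (D.out q q' hq2 hqX).1
      omega
    have := hmin q hqX (Or.inl hq1)
    omega
  refine ⟨s, hsZ.1, ?_⟩
  rcases hsZ.2 with hd | hd
  · left
    refine ⟨hd, key w v hvw.symm hl.symm (fun q hq h => hmin q ⟨hq, h.symm⟩) hsZ.1 hd⟩
  · right
    exact ⟨hd, key v w hvw hl (fun q hq h => hmin q ⟨hq, h⟩) hsZ.1 hd⟩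

/-- every edge is a tree edge or a non-tree edge -/
lemma edge_cases (B : BFS G r p) {x y : V} (h : G.Adj x y) :
    (x ≠ r ∧ p x = y) ∨ (y ≠ r ∧ p y = x) ∨ NT G p x y := by
  by_cases h1 : p x = y
  · left
    refine ⟨?_, h1⟩
    rintro rfl
    rw [B.root] at h1
    exact h.ne h1
  · by_cases h2 : p y = x
    · right; left
      refine ⟨?_, h2⟩
      rintro rfl
      rw [B.root] at h2
      exact h.ne h2.symm
    · right; right
      exact ⟨h, h1, h2⟩

lemma vv [Finite V] {X : Set V} (D : Dat G r p X) {v w : V} (hvw : v ≠ w) :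
    ∃ s ∈ insert r X, G.dist s v ≠ G.dist s w := by
  by_cases hl : G.dist r v = G.dist r w
  · obtain ⟨s, hs, h⟩ := factB D hvw hl
    refine ⟨s, Set.mem_insert_of_mem _ hs, ?_⟩
    rcases h with ⟨h1, h2⟩ | ⟨h1, h2⟩
    · have := h1.dist D.conn D.bfs; omega
    · have := h1.dist D.conn D.bfs; omega
  · exact ⟨r, Set.mem_insert _ _, hl⟩

lemma ve_tree [Finite V] {X : Set V} (D : Dat G r p X) {v y : V} (hy : y ≠ r) :
    ∃ s ∈ insert r X, G.dist s v ≠ min (G.dist s (p y)) (G.dist s y) := by
  have hly := D.bfs.lev y hy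
  by_cases hl : G.dist r v = G.dist r (p y)
  · obtain ⟨s, hs, hd⟩ := D.meet y hy
    refine ⟨s, Set.mem_insert_of_mem _ hs, ?_⟩
    have h1 := hd.dist D.conn D.bfs
    have h2 := lvle (r := r) D.conn s v
    have h3 : min (G.dist s (p y)) (G.dist s y) ≤ G.dist s y := min_le_right _ _
    omega
  · refine ⟨r, Set.mem_insert _ _, ?_⟩
    rw [min_eq_left (by omega)]
    exact hl

lemma ve_nt [Finite V] {X : Set V} (D : Dat G r p X) {v x y : V} (h : NT G p x y) :
    ∃ s ∈ insert r X, G.dist s v ≠ min (G.dist s x) (G.dist s y) := by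
  have base : ∀ x y : V, NT G p x y → x ∈ X → v ≠ x →
      ∃ s ∈ insert r X, G.dist s v ≠ min (G.dist s x) (G.dist s y) := by
    intro x y h hx hvx
    refine ⟨x, Set.mem_insert_of_mem _ hx, ?_⟩
    simp only [SimpleGraph.dist_self, zero_le, min_eq_left]
    intro h0
    exact hvx ((D.conn.dist_eq_zero_iff).mp h0).symm
  have base' : ∀ x y : V, NT G p x y → y ∈ X → v ≠ y →
      ∃ s ∈ insert r X, G.dist s v ≠ min (G.dist s x) (G.dist s y) := by
    intro x y h hx hvx
    obtain ⟨s, hs, hh⟩ := base y x h.symm hx hvx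
    exact ⟨s, hs, by rwa [min_comm]⟩
  have special : ∀ x y : V, NT G p x y → x ∉ X →
      ∃ s ∈ insert r X, G.dist s v ≠ min (G.dist s x) (G.dist s y) := by
    intro x y h hx
    obtain ⟨h1, h2, h3, h4, h5⟩ := D.out x y h hx
    by_cases hvy : v = y
    · subst hvy
      have hxr : x ≠ r := by
        rintro rfl
        have h1' : G.dist x v = 0 := by
          rw [SimpleGraph.dist_self] at h1; omega
        exact h.1.ne ((D.conn.dist_eq_zero_iff).mp h1')
      obtain ⟨s, hs, hd⟩ := D.meet x hxr
      refine ⟨s, Set.mem_insert_of_mem _ hs, ?_⟩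
      have := h4 s hd
      rw [min_eq_left (by omega)]
      omega
    · exact base' x y h h2 hvy
  by_cases hx : x ∈ X
  · by_cases hy : y ∈ X
    · by_cases hvx : v = x
      · exact base' x y h hy (fun hh => h.1.ne (hvx.symm.trans hh))
      · exact base x y h hx hvx
    · obtain ⟨s, hs, hh⟩ := special y x h.symm hy
      exact ⟨s, hs, by rwa [min_comm]⟩
  · exact special x y h hx

lemma ee_tree [Finite V] {X : Set V} (D : Dat G r p X) {y w : V} (hy : y ≠ r) (hw : w ≠ r)
    (hyw : y ≠ w) :
    ∃ s ∈ insert r X, min (G.dist s (p y)) (G.dist s y) ≠ min (G.dist s (p w)) (G.dist s w) := by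
  have hly := D.bfs.lev y hy
  have hlw := D.bfs.lev w hw
  by_cases hl : G.dist r y = G.dist r w
  · obtain ⟨s, hs, h⟩ := factB D hyw hl
    refine ⟨s, Set.mem_insert_of_mem _ hs, ?_⟩
    have a1 := lvle (r := r) D.conn s (p y)
    have a2 := lvle (r := r) D.conn s (p w)
    have a3 := lvle (r := r) D.conn s y
    have a4 := lvle (r := r) D.conn s w
    rcases h with ⟨h1, h2⟩ | ⟨h1, h2⟩
    · have h3 := h1.dist D.conn D.bfs
      omega
    · have h3 := h1.dist D.conn D.bfs
      omega
  · refine ⟨r, Set.mem_insert _ _, ?_⟩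
    omega

/-- a non-tree edge and any other edge -/
lemma ee_nt [Finite V] {X : Set V} (D : Dat G r p X) {x y z w : V} (h : NT G p x y)
    (hzw : G.Adj z w) (hne : ¬ ((x = z ∧ y = w) ∨ (x = w ∧ y = z))) :
    ∃ s ∈ insert r X, min (G.dist s x) (G.dist s y) ≠ min (G.dist s z) (G.dist s w) := by
  have endpt : ∀ x y : V, NT G p x y → x ∈ X → x ≠ z → x ≠ w →
      ∃ s ∈ insert r X, min (G.dist s x) (G.dist s y) ≠ min (G.dist s z) (G.dist s w) := by
    intro x y h hx hxz hxw
    refine ⟨x, Set.mem_insert_of_mem _ hx, ?_⟩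
    have h1 : G.dist x z ≠ 0 := fun h0 => hxz ((D.conn.dist_eq_zero_iff).mp h0)
    have h2 : G.dist x w ≠ 0 := fun h0 => hxw ((D.conn.dist_eq_zero_iff).mp h0)
    simp only [SimpleGraph.dist_self, zero_le, min_eq_left]
    omega
  have special : ∀ x y : V, NT G p x y → x ∉ X → (¬ ((x = z ∧ y = w) ∨ (x = w ∧ y = z))) →
      ∃ s ∈ insert r X, min (G.dist s x) (G.dist s y) ≠ min (G.dist s z) (G.dist s w) := by
    intro x y h hx hne
    obtain ⟨h1, h2, h3, h4, h5⟩ := D.out x y h hx
    have hxr : x ≠ r := by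
      rintro rfl
      have h1' : G.dist x y = 0 := by
        rw [SimpleGraph.dist_self] at h1; omega
      exact h.1.ne ((D.conn.dist_eq_zero_iff).mp h1')
    -- the case of an edge `y c`
    have sp : ∀ c : V, G.Adj y c → c ≠ x →
        ∃ s ∈ insert r X, min (G.dist s x) (G.dist s y) ≠ min (G.dist s y) (G.dist s c) := by
      intro c hyc hcx
      rcases edge_cases D.bfs hyc with ⟨hyr, hp⟩ | ⟨hcr, hp⟩ | hnt
      · -- `c` is the parent of `y`
        refine ⟨r, Set.mem_insert _ _, ?_⟩
        have := D.bfs.lev y hyr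
        rw [hp] at this
        omega
      · -- `c` is a child of `y`
        have hlc := D.bfs.lev c hcr
        rw [hp] at hlc
        have hadj := h.1
        have hlx : G.dist r x ≤ G.dist r y + 1 := by
          have t := D.conn.dist_triangle (u := r) (v := y) (w := x)
          have t2 : G.dist y x = 1 := dist_eq_one_iff_adj.mpr hadj.symm
          omega
        by_cases hle : G.dist r x = G.dist r y
        · obtain ⟨s, hs, hd⟩ := D.meet c hcr
          refine ⟨s, Set.mem_insert_of_mem _ hs, ?_⟩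
          have b1 := hd.dist D.conn D.bfs
          have b2 := lvle (r := r) D.conn s x
          have b3 := lvle (r := r) D.conn s y
          omega
        · obtain ⟨s, hs, hh⟩ := factB D (v := x) (w := c) hcx.symm (by omega)
          refine ⟨s, Set.mem_insert_of_mem _ hs, ?_⟩
          have b2 := lvle (r := r) D.conn s x
          have b3 := lvle (r := r) D.conn s y
          have b4 := lvle (r := r) D.conn s c
          rcases hh with ⟨g1, g2⟩ | ⟨g1, g2⟩
          · have g3 := g1.dist D.conn D.bfs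
            omega
          · have g3 := g1.dist D.conn D.bfs
            omega
      · -- another non-tree edge
        have hcX : c ∈ X := by
          by_contra hcX
          exact hcx (h5 c y hnt.symm hcX)
        refine ⟨c, Set.mem_insert_of_mem _ hcX, ?_⟩
        have c1 : G.dist c x ≠ 0 := fun h0 => hcx ((D.conn.dist_eq_zero_iff).mp h0)
        have c2 : G.dist c y ≠ 0 := fun h0 => hyc.ne ((D.conn.dist_eq_zero_iff).mp h0).symm
        simp only [SimpleGraph.dist_self, zero_le, min_eq_right]
        omega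
    by_cases hyz : y = z
    · subst hyz
      obtain ⟨s, hs, hh⟩ := sp w hzw (fun hh => hne (Or.inr ⟨hh.symm, rfl⟩))
      exact ⟨s, hs, hh⟩
    · by_cases hyw : y = w
      · subst hyw
        obtain ⟨s, hs, hh⟩ := sp z hzw.symm (fun hh => hne (Or.inl ⟨hh.symm, rfl⟩))
        refine ⟨s, hs, ?_⟩
        rw [min_comm (G.dist s z)]
        exact hh
      · obtain ⟨s, hs, hh⟩ := endpt y x h.symm h2 hyz hyw
        refine ⟨s, hs, ?_⟩
        rw [min_comm (G.dist s x)]
        exact hh
  by_cases hx : x ∈ X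
  · by_cases hy : y ∈ X
    · by_cases hxz : x ≠ z ∧ x ≠ w
      · exact endpt x y h hx hxz.1 hxz.2
      · have hy2 : y ≠ z ∧ y ≠ w := by
          have hxy := h.1.ne
          constructor
          · rintro rfl
            apply hxz
            exact ⟨hxy, fun hh => hne (Or.inr ⟨hh, rfl⟩)⟩
          · rintro rfl
            apply hxz
            exact ⟨fun hh => hne (Or.inl ⟨hh, rfl⟩), hxy⟩
        obtain ⟨s, hs, hh⟩ := endpt y x h.symm hy hy2.1 hy2.2
        refine ⟨s, hs, ?_⟩
        rw [min_comm (G.dist s x)]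
        exact hh
    · obtain ⟨s, hs, hh⟩ := special y x h.symm hy (by
        intro hh
        apply hne
        rcases hh with ⟨a, b⟩ | ⟨a, b⟩
        · exact Or.inr ⟨b, a⟩
        · exact Or.inl ⟨b, a⟩)
      refine ⟨s, hs, ?_⟩
      rw [min_comm (G.dist s x)]
      exact hh
  · exact special x y h hx hne

lemma ve [Finite V] {X : Set V} (D : Dat G r p X) {v x y : V} (h : G.Adj x y) :
    ∃ s ∈ insert r X, G.dist s v ≠ min (G.dist s x) (G.dist s y) := by
  rcases edge_cases D.bfs h with ⟨hr, hp⟩ | ⟨hr, hp⟩ | hnt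
  · obtain ⟨s, hs, hh⟩ := ve_tree D (v := v) hr
    refine ⟨s, hs, ?_⟩
    rw [hp, min_comm] at hh
    exact hh
  · obtain ⟨s, hs, hh⟩ := ve_tree D (v := v) hr
    refine ⟨s, hs, ?_⟩
    rw [hp] at hh
    exact hh
  · exact ve_nt D hnt

lemma ee [Finite V] {X : Set V} (D : Dat G r p X) {x y z w : V} (h : G.Adj x y)
    (hzw : G.Adj z w) (hne : s(x, y) ≠ s(z, w)) :
    ∃ s ∈ insert r X, min (G.dist s x) (G.dist s y) ≠ min (G.dist s z) (G.dist s w) := by
  have hne' : ¬ ((x = z ∧ y = w) ∨ (x = w ∧ y = z)) := by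
    intro hh; apply hne; rw [Sym2.eq_iff]; exact hh
  rcases edge_cases D.bfs h with ⟨hr, hp⟩ | ⟨hr, hp⟩ | hnt
  · rcases edge_cases D.bfs hzw with ⟨hr2, hp2⟩ | ⟨hr2, hp2⟩ | hnt2
    · have : x ≠ z := by
        rintro rfl; apply hne'; exact Or.inl ⟨rfl, hp.symm.trans hp2⟩
      obtain ⟨s, hs, hh⟩ := ee_tree D hr hr2 this
      refine ⟨s, hs, ?_⟩
      rw [hp, hp2, min_comm, min_comm (G.dist s w)] at hh
      exact hh
    · have : x ≠ w := by
        rintro rfl; apply hne'; exact Or.inr ⟨rfl, hp.symm.trans hp2⟩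
      obtain ⟨s, hs, hh⟩ := ee_tree D hr hr2 this
      refine ⟨s, hs, ?_⟩
      rw [hp, hp2, min_comm] at hh
      exact hh
    · obtain ⟨s, hs, hh⟩ := ee_nt D hnt2 h (by
        intro hh; apply hne'
        rcases hh with ⟨a, b⟩ | ⟨a, b⟩
        · exact Or.inl ⟨a.symm, b.symm⟩
        · exact Or.inr ⟨b.symm, a.symm⟩)
      exact ⟨s, hs, hh.symm⟩
  · rcases edge_cases D.bfs hzw with ⟨hr2, hp2⟩ | ⟨hr2, hp2⟩ | hnt2
    · have : y ≠ z := by
        rintro rfl; apply hne'; exact Or.inr ⟨hp.symm.trans hp2, rfl⟩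
      obtain ⟨s, hs, hh⟩ := ee_tree D hr hr2 this
      refine ⟨s, hs, ?_⟩
      rw [hp, hp2, min_comm (G.dist s w)] at hh
      exact hh
    · have : y ≠ w := by
        rintro rfl; apply hne'; exact Or.inl ⟨hp.symm.trans hp2, rfl⟩
      obtain ⟨s, hs, hh⟩ := ee_tree D hr hr2 this
      refine ⟨s, hs, ?_⟩
      rw [hp, hp2] at hh
      exact hh
    · obtain ⟨s, hs, hh⟩ := ee_nt D hnt2 h (by
        intro hh; apply hne'
        rcases hh with ⟨a, b⟩ | ⟨a, b⟩
        · exact Or.inl ⟨a.symm, b.symm⟩
        · exact Or.inr ⟨b.symm, a.symm⟩)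
      exact ⟨s, hs, hh.symm⟩
  · exact ee_nt D hnt hzw hne'

end resolving

section construction

/-- a root from which two edges at `b` do not go down -/
lemma exists_root (hc : G.Connected) {b n1 n2 : V} (h1 : G.Adj b n1) (h2 : G.Adj b n2)
    (h12 : n1 ≠ n2) (hb : (G.induce {w | w ≠ b}).Connected) :
    ∃ r, r ≠ b ∧ ∃ y1 y2, y1 ≠ y2 ∧ G.Adj b y1 ∧ G.Adj b y2 ∧ G.dist r y1 ≤ G.dist r b ∧
      G.dist r y2 ≤ G.dist r b := by
  by_contra hcon
  push Not at hcon
  -- the path in `G - b`
  let a1 : {w | w ≠ b} := ⟨n1, h1.ne'⟩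
  let a2 : {w | w ≠ b} := ⟨n2, h2.ne'⟩
  obtain ⟨W⟩ := hb.preconnected a1 a2
  let S : Set {w | w ≠ b} := {r | G.dist r.1 n1 < G.dist r.1 b}
  have hS1 : a1 ∈ S := by
    change G.dist n1 n1 < G.dist n1 b
    rw [SimpleGraph.dist_self, dist_eq_one_iff_adj.mpr h1.symm]; norm_num
  have hS2 : a2 ∉ S := by
    change ¬ G.dist n2 n1 < G.dist n2 b
    rw [dist_eq_one_iff_adj.mpr h2.symm]
    intro h
    have : G.dist n2 n1 = 0 := by omega
    exact h12 ((hc.dist_eq_zero_iff).mp this).symm
  obtain ⟨d, _, hd1, hd2⟩ := W.exists_boundary_dart S hS1 hS2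
  obtain ⟨⟨⟨r, hr⟩, ⟨r', hr'⟩⟩, hadj⟩ := d
  change G.dist r n1 < G.dist r b at hd1
  change ¬ G.dist r' n1 < G.dist r' b at hd2
  have hrr : G.Adj r r' := hadj
  change r ≠ b at hr
  change r' ≠ b at hr'
  -- an up-neighbour of `b` for `r'`
  obtain ⟨u, hu, hun⟩ : ∃ u, G.Adj b u ∧ G.dist r' u + 1 = G.dist r' b := by
    obtain ⟨w, hw⟩ := hc.exists_walk_length_eq_dist b r'
    cases w with
    | nil => exact absurd rfl hr'
    | cons h q =>
      rename_i u
      refine ⟨u, h, ?_⟩
      simp at hw
      have g1 : G.dist u r' ≤ q.length := dist_le q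
      have g2 := hc.dist_triangle (u := b) (v := u) (w := r')
      have g3 : G.dist b u = 1 := dist_eq_one_iff_adj.mpr h
      rw [G.dist_comm (u := r') (v := u), G.dist_comm (u := r') (v := b)]
      omega
  have hun1 : u ≠ n1 := by
    rintro rfl
    omega
  have k1 := hcon r hr n1 u hun1.symm h1 hu hd1.le
  have k2 := hcon r' hr' u n1 hun1 hu h1 (by omega)
  have t1 := hc.dist_triangle (u := r) (v := r') (w := u)
  have t2 := hc.dist_triangle (u := r') (v := r) (w := n1)
  have t3 : G.dist r r' = 1 := dist_eq_one_iff_adj.mpr hrr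
  have t4 : G.dist r' r = 1 := dist_eq_one_iff_adj.mpr hrr.symm
  omega

/-- the vertices which can be reached from `r` by a geodesic avoiding `b` -/
inductive Av (G : SimpleGraph V) (r b : V) : V → Prop
  | root : r ≠ b → Av G r b r
  | step (u s : V) : Av G r b u → G.Adj u s → G.dist r s = G.dist r u + 1 → s ≠ b → Av G r b s

lemma exists_up (hc : G.Connected) {r s : V} (hs : s ≠ r) :
    ∃ u, G.Adj s u ∧ G.dist r u + 1 = G.dist r s := by
  obtain ⟨w, hw⟩ := hc.exists_walk_length_eq_dist s r
  cases w with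
  | nil => exact absurd rfl hs
  | cons h q =>
    rename_i u
    refine ⟨u, h, ?_⟩
    simp at hw
    have g1 : G.dist u r ≤ q.length := dist_le q
    have g2 := hc.dist_triangle (u := s) (v := u) (w := r)
    have g3 : G.dist s u = 1 := dist_eq_one_iff_adj.mpr h
    rw [G.dist_comm (u := r) (v := u), G.dist_comm (u := r) (v := s)]
    omega

lemma exists_parent (hc : G.Connected) (r b : V) :
    ∃ p : V → V, BFS G r p ∧ ∀ v, v ≠ r → Av G r b v → Av G r b (p v) := by
  classical
  have h : ∀ v, ∃ u, (v = r → u = r) ∧ (v ≠ r → G.Adj v u ∧ G.dist r u + 1 = G.dist r v ∧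
      (Av G r b v → Av G r b u)) := by
    intro v
    by_cases hv : v = r
    · exact ⟨r, fun _ => rfl, fun h => absurd hv h⟩
    · by_cases ha : Av G r b v
      · cases ha with
        | root h => exact absurd rfl hv
        | step u s h1 h2 h3 h4 =>
          exact ⟨u, fun h => absurd h hv, fun _ => ⟨h2.symm, h3.symm, fun _ => h1⟩⟩
      · obtain ⟨u, hu1, hu2⟩ := exists_up hc hv
        exact ⟨u, fun h => absurd h hv, fun _ => ⟨hu1, hu2, fun h => absurd h ha⟩⟩
  choose p hp using h
  refine ⟨p, ⟨(hp r).1 rfl, fun v hv => ((hp v).2 hv).1, fun v hv => ((hp v).2 hv).2.1⟩,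
    fun v hv => ((hp v).2 hv).2.2⟩

lemma not_av_self {r b : V} : ¬ Av G r b b := by
  intro h
  cases h with
  | root h => exact h rfl
  | step u s h1 h2 h3 h4 => exact h4 rfl

/-- vertices at most as high as `b` can be reached without `b` -/
lemma av_of_le (hc : G.Connected) {r b : V} (hrb : r ≠ b) (n : ℕ) : ∀ y, G.dist r y = n →
    G.dist r y ≤ G.dist r b → y ≠ b → Av G r b y := by
  induction n with
  | zero =>
    intro y h _ _
    have : r = y := (hc.dist_eq_zero_iff).mp h
    subst this
    exact Av.root hrb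
  | succ n ih =>
    intro y hn hle hy
    have hyr : y ≠ r := by
      rintro rfl
      rw [SimpleGraph.dist_self] at hn; omega
    obtain ⟨u, hu, hul⟩ := exists_up hc hyr
    have hub : u ≠ b := by
      rintro rfl
      omega
    exact Av.step u y (ih u (by omega) (by omega) hub) hu.symm hul.symm hy

/-- going down from such a vertex -/
lemma av_down (hc : G.Connected) {r b : V} (hrb : r ≠ b) {y : V} (hyb : y ≠ b)
    (hle : G.dist r y = G.dist r b) (n : ℕ) : ∀ s, G.dist s y = n →
    G.dist s y + G.dist r y = G.dist r s → Av G r b s := by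
  induction n with
  | zero =>
    intro s h _
    have : s = y := (hc.dist_eq_zero_iff).mp h
    subst this
    exact av_of_le hc hrb _ s rfl hle.le hyb
  | succ n ih =>
    intro s hn hs
    have hsy : s ≠ y := by
      rintro rfl
      rw [SimpleGraph.dist_self] at hn; omega
    obtain ⟨u, hu, hul⟩ := exists_up (r := y) hc hsy
    rw [G.dist_comm (u := y) (v := u), G.dist_comm (u := y) (v := s)] at hul
    have h1 := lvle (r := r) hc u y
    have h2 : G.dist r s ≤ G.dist r u + 1 := by
      have g2 := hc.dist_triangle (u := r) (v := u) (w := s)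
      have g3 : G.dist u s = 1 := dist_eq_one_iff_adj.mpr hu.symm
      omega
    have hsb : s ≠ b := by
      rintro rfl
      omega
    exact Av.step u s (ih u (by omega) (by omega)) hu.symm (by omega) hsb

lemma not_av_of_desc {r b : V} {p : V → V} (hA : ∀ v, v ≠ r → Av G r b v → Av G r b (p v))
    (B : BFS G r p) (hrb : r ≠ b) (k : ℕ) : ∀ s, p^[k] s = b → ¬ Av G r b s := by
  induction k with
  | zero => intro s h; simp at h; subst h; exact not_av_self
  | succ k ih =>
    intro s h hs
    rw [Function.iterate_succ_apply] at h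
    by_cases hsr : s = r
    · subst hsr
      rw [B.root] at h
      have : ∀ j, p^[j] s = s := by
        intro j
        induction j with
        | zero => rfl
        | succ j ihj => rw [Function.iterate_succ_apply, B.root, ihj]
      rw [this] at h
      exact hrb h
    · exact ih (p s) h (hA s hsr hs)

end construction

end Pool.Agent.V5helper6.Mixed
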