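import Pool.Agent.V5helper6.Mixed

set_option autoImplicit false

namespace Pool.Agent.V5helper6.Mixed

open SimpleGraph

variable {V : Type*} {G : SimpleGraph V} {r : V} {p : V → V}

/-- the graph of the non-tree edges -/
def ntg (G : SimpleGraph V) (p : V → V) : SimpleGraph V where
  Adj := NT G p
  symm := ⟨fun _ _ h => h.symm⟩
  loopless := ⟨fun a h => G.loopless.irrefl a h.1⟩

lemma factA [Finite V] (hc : G.Connected) (B : BFS G r p)
    (hdeg : ∀ v, ∃ y1 y2, y1 ≠ y2 ∧ G.Adj v y1 ∧ G.Adj v y2) {v : V} (hv : v ≠ r) :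
    ∃ s, Desc G r p v s ∧ (∃ y, NT G p s y) ∧ ∀ c, c ≠ r → p c ≠ s := by
  let Z : Set V := {s | Desc G r p v s}
  obtain ⟨s, hs, hmax⟩ := Set.exists_max_image Z (fun s => G.dist r s) (Set.toFinite Z)
    ⟨v, Desc.refl v⟩
  have hlv : G.dist r v ≠ 0 := fun h => hv (root_of_lev hc h)
  have hls := Desc.lev_le hs
  have hsr : s ≠ r := by
    rintro rfl
    rw [SimpleGraph.dist_self] at hls
    omega
  have hno : ∀ c, c ≠ r → p c ≠ s := by
    intro c hcr hpc
    have h1 := B.lev c hcr
    have h2 : Desc G r p v c := Desc.step B hcr (by rw [hpc]; exact hs)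
    have h3 := hmax c h2
    rw [hpc] at h1
    change G.dist r c ≤ G.dist r s at h3
    omega
  refine ⟨s, hs, ?_, hno⟩
  obtain ⟨y1, y2, h12, ha1, ha2⟩ := hdeg s
  have key : ∀ y, G.Adj s y → y ≠ p s → NT G p s y := by
    intro y hy hne
    refine ⟨hy, hne.symm, ?_⟩
    intro h
    by_cases hyr : y = r
    · subst hyr
      rw [B.root] at h
      exact hy.ne h.symm
    · exact hno y hyr h
  by_cases h : y1 = p s
  · exact ⟨y2, key y2 ha2 (fun hh => h12 (h.trans hh.symm))⟩
  · exact ⟨y1, key y1 ha1 h⟩

open Classical in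
lemma count [Fintype V] (B : BFS G r p) :
    (ntg G p).edgeFinset.card + (Fintype.card V - 1) ≤ G.edgeFinset.card := by
  let t : Finset (Sym2 V) := (Finset.univ.erase r).image (fun v => s(v, p v))
  have ht : t.card = Fintype.card V - 1 := by
    rw [Finset.card_image_of_injOn, Finset.card_erase_of_mem (Finset.mem_univ _),
      Finset.card_univ]
    intro v hv w hw h
    have hv' : v ≠ r := by simpa using hv
    have hw' : w ≠ r := by simpa using hw
    simp only [Sym2.eq_iff] at h
    rcases h with ⟨h, _⟩ | ⟨h1, h2⟩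
    · exact h
    · have a1 := B.lev v hv'
      have a2 := B.lev w hw'
      rw [h2] at a1
      rw [← h1] at a2
      omega
  have hdis : Disjoint (ntg G p).edgeFinset t := by
    rw [Finset.disjoint_left]
    intro e he ht
    obtain ⟨v, _, rfl⟩ := Finset.mem_image.mp ht
    rw [mem_edgeFinset, mem_edgeSet] at he
    exact he.2.1 rfl
  have hsub : (ntg G p).edgeFinset ∪ t ⊆ G.edgeFinset := by
    intro e he
    rcases Finset.mem_union.mp he with he | he
    · induction e with
      | _ x y =>
        rw [mem_edgeFinset, mem_edgeSet] at he ⊢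
        exact he.1
    · obtain ⟨v, hv, rfl⟩ := Finset.mem_image.mp he
      rw [mem_edgeFinset, mem_edgeSet]
      exact B.adj v (by simpa using hv)
  have := Finset.card_le_card hsub
  rw [Finset.card_union_of_disjoint hdis, ht] at this
  exact this

open Classical in
/-- the main theorem in explicit form -/
theorem main [Fintype V] (hc : G.Connected) (hdeg : ∀ v, 2 ≤ G.degree v) {b : V}
    (hb3 : 3 ≤ G.degree b) (hb : (G.induce {w | w ≠ b}).Connected) :
    ∃ S : Finset V,
      (S.card : ℤ) ≤ 2 * ((G.edgeFinset.card : ℤ) - (Fintype.card V : ℤ) + 1) ∧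
      (∀ v w, v ≠ w → ∃ s ∈ S, G.dist s v ≠ G.dist s w) ∧
      (∀ v x y, G.Adj x y → ∃ s ∈ S, G.dist s v ≠ min (G.dist s x) (G.dist s y)) ∧
      (∀ x y z w, G.Adj x y → G.Adj z w → s(x, y) ≠ s(z, w) →
        ∃ s ∈ S, min (G.dist s x) (G.dist s y) ≠ min (G.dist s z) (G.dist s w)) := by
  have hdeg' : ∀ v, ∃ y1 y2, y1 ≠ y2 ∧ G.Adj v y1 ∧ G.Adj v y2 := by
    intro v
    have h := hdeg v
    rw [← card_neighborFinset_eq_degree] at h
    obtain ⟨y1, h1, y2, h2, h12⟩ := Finset.one_lt_card.mp h
    exact ⟨y1, y2, h12, by simpa using h1, by simpa using h2⟩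
  obtain ⟨n1, n2, h12, hn1, hn2⟩ := hdeg' b
  obtain ⟨r, hrb, y1, y2, hy12, hy1, hy2, hl1, hl2⟩ := exists_root hc hn1 hn2 h12 hb
  obtain ⟨p, B, hA⟩ := exists_parent hc r b
  have hbr : b ≠ r := hrb.symm
  -- a neighbour `y0` which is not the parent
  obtain ⟨y0, hy0, hl0, hp0⟩ : ∃ y0, G.Adj b y0 ∧ G.dist r y0 ≤ G.dist r b ∧ p b ≠ y0 := by
    by_cases h : p b = y1
    · exact ⟨y2, hy2, hl2, fun hh => hy12 (h.symm.trans hh)⟩
    · exact ⟨y1, hy1, hl1, h⟩
  have hnt0 : NT G p b y0 := by
    refine ⟨hy0, hp0, ?_⟩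
    intro h
    by_cases hyr : y0 = r
    · subst hyr
      rw [B.root] at h
      exact hrb h
    · have := B.lev y0 hyr
      rw [h] at this
      omega
  -- counting
  have hcount := count B
  have hsum := (ntg G p).sum_degrees_eq_twice_card_edges
  have hcardV : 1 ≤ Fintype.card V := Fintype.card_pos_iff.mpr ⟨b⟩
  let S : Finset V := Finset.univ.filter (fun v => ∃ y, NT G p v y)
  have hdegS : ∀ v ∈ S, 1 ≤ (ntg G p).degree v := by
    intro v hv
    obtain ⟨y, hy⟩ := (Finset.mem_filter.mp hv).2
    rw [Nat.succ_le_iff, degree_pos_iff_exists_adj]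
    exact ⟨y, hy⟩
  -- every construction gives the result
  have fin : ∀ X : Finset V, Dat G r p (X : Set V) →
      (X.card : ℤ) + 1 ≤ 2 * ((G.edgeFinset.card : ℤ) - (Fintype.card V : ℤ) + 1) →
      ∃ S : Finset V,
      (S.card : ℤ) ≤ 2 * ((G.edgeFinset.card : ℤ) - (Fintype.card V : ℤ) + 1) ∧
      (∀ v w, v ≠ w → ∃ s ∈ S, G.dist s v ≠ G.dist s w) ∧
      (∀ v x y, G.Adj x y → ∃ s ∈ S, G.dist s v ≠ min (G.dist s x) (G.dist s y)) ∧
      (∀ x y z w, G.Adj x y → G.Adj z w → s(x, y) ≠ s(z, w) →
        ∃ s ∈ S, min (G.dist s x) (G.dist s y) ≠ min (G.dist s z) (G.dist s w)) := by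
    intro X D hX
    have hmem : ∀ s, s ∈ insert r (X : Set V) → s ∈ insert r X := by
      intro s hs
      rcases hs with h | h
      · exact Finset.mem_insert.mpr (Or.inl h)
      · exact Finset.mem_insert.mpr (Or.inr h)
    refine ⟨insert r X, ?_, ?_, ?_, ?_⟩
    · have := Finset.card_insert_le r X
      have h2 : ((insert r X).card : ℤ) ≤ X.card + 1 := by exact_mod_cast this
      linarith
    · intro v w hvw
      obtain ⟨s, hs, hh⟩ := vv D hvw
      exact ⟨s, hmem s hs, hh⟩
    · intro v x y hxy
      obtain ⟨s, hs, hh⟩ := ve D (v := v) hxy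
      exact ⟨s, hmem s hs, hh⟩
    · intro x y z w hxy hzw hne
      obtain ⟨s, hs, hh⟩ := ee D hxy hzw hne
      exact ⟨s, hmem s hs, hh⟩
  by_cases hA' : ∃ y', y' ≠ y0 ∧ NT G p b y'
  · -- two non-tree edges at `b`
    obtain ⟨y', hy'0, hnt'⟩ := hA'
    apply fin S
    · refine ⟨hc, B, ?_, ?_, ?_⟩
      · intro x hx
        exact (Finset.mem_filter.mp (Finset.mem_coe.mp hx)).2
      · intro v hv
        obtain ⟨s, hs1, hs2, _⟩ := factA hc B hdeg' hv
        exact ⟨s, by simpa [S] using hs2, hs1⟩
      · intro a y ha haS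
        exact absurd (by simpa [S] using ⟨y, ha⟩) haS
    · have hbdeg : 2 ≤ (ntg G p).degree b := by
        rw [← card_neighborFinset_eq_degree]
        have : ({y0, y'} : Finset V) ⊆ (ntg G p).neighborFinset b := by
          intro z hz
          rw [mem_neighborFinset]
          rcases Finset.mem_insert.mp hz with h | h
          · rw [h]; exact hnt0
          · rw [Finset.mem_singleton.mp h]; exact hnt'
        have h2 := Finset.card_le_card this
        rw [Finset.card_pair hy'0.symm] at h2
        exact h2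
      have hbS : b ∈ S := by simp only [S, Finset.mem_filter, Finset.mem_univ, true_and]; exact ⟨y0, hnt0⟩
      have hs1 : S.card + 1 ≤ ∑ v, (ntg G p).degree v := by
        calc S.card + 1 = (∑ v ∈ S.erase b, 1) + 2 := by
              rw [Finset.sum_const, smul_eq_mul, mul_one, Finset.card_erase_of_mem hbS]
              have : 1 ≤ S.card := Finset.card_pos.mpr ⟨b, hbS⟩
              omega
          _ ≤ (∑ v ∈ S.erase b, (ntg G p).degree v) + (ntg G p).degree b := by
              apply Nat.add_le_add _ hbdeg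
              exact Finset.sum_le_sum (fun v hv => hdegS v (Finset.mem_of_mem_erase hv))
          _ = ∑ v ∈ S, (ntg G p).degree v := Finset.sum_erase_add _ _ hbS
          _ ≤ ∑ v, (ntg G p).degree v :=
              Finset.sum_le_sum_of_subset (Finset.subset_univ _)
      rw [hsum] at hs1
      omega
  · -- exactly one non-tree edge at `b`
    push Not at hA'
    have huniq : ∀ z, NT G p b z → z = y0 := by
      intro z hz
      by_contra h
      exact hA' z h hz
    -- a child of `b`
    obtain ⟨c, hcr, hpc⟩ : ∃ c, c ≠ r ∧ p c = b := by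
      have h3 : ∃ c ∈ G.neighborFinset b, c ≠ p b ∧ c ≠ y0 := by
        by_contra hcon
        push Not at hcon
        have hsub : G.neighborFinset b ⊆ {p b, y0} := by
          intro c hc
          rw [Finset.mem_insert, Finset.mem_singleton]
          by_cases h : c = p b
          · exact Or.inl h
          · exact Or.inr (hcon c hc h)
        have h4 := Finset.card_le_card hsub
        rw [card_neighborFinset_eq_degree] at h4
        have h5 : ({p b, y0} : Finset V).card ≤ 2 := Finset.card_le_two
        omega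
      obtain ⟨c, hcb, hc1, hc2⟩ := h3
      rw [mem_neighborFinset] at hcb
      have hpc : p c = b := by
        by_contra h
        exact hc2 (huniq c ⟨hcb, hc1.symm, h⟩)
      refine ⟨c, ?_, hpc⟩
      rintro rfl
      rw [B.root] at hpc
      exact hrb hpc
    apply fin (S.erase b)
    · refine ⟨hc, B, ?_, ?_, ?_⟩
      · intro x hx
        exact (Finset.mem_filter.mp (Finset.mem_of_mem_erase (Finset.mem_coe.mp hx))).2
      · intro v hv
        obtain ⟨s, hs1, hs2, hs3⟩ := factA hc B hdeg' hv
        refine ⟨s, ?_, hs1⟩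
        rw [Finset.mem_coe, Finset.mem_erase]
        exact ⟨fun h => hs3 c hcr (h ▸ hpc), by simpa [S] using hs2⟩
      · have hout : ∀ a y, NT G p a y → a ∉ ((S.erase b : Finset V) : Set V) → a = b := by
          intro a y ha haS
          by_contra hab
          apply haS
          rw [Finset.mem_coe, Finset.mem_erase]
          exact ⟨hab, by simpa [S] using ⟨y, ha⟩⟩
        intro a y ha haS
        have hab := hout a y ha haS
        subst hab
        have hyy := huniq y ha
        subst hyy
        refine ⟨hl0, ?_, huniq, ?_, fun a c h1 h2 => hout a c h1 h2⟩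
        · rw [Finset.mem_coe, Finset.mem_erase]
          exact ⟨hy0.ne', by simpa [S] using ⟨a, ha.symm⟩⟩
        · intro s hs
          have h1 := hs.dist hc B
          have h2 := lvle (r := r) hc s y
          by_contra hcon
          have h3 : G.dist r y = G.dist r a := by omega
          have h4 : G.dist s y + G.dist r y = G.dist r s := by omega
          obtain ⟨k, hk, _⟩ := hs
          exact not_av_of_desc hA B hrb k s hk (av_down hc hrb hy0.ne' h3 _ s rfl h4)
    · have hbS : b ∈ S := by simp only [S, Finset.mem_filter, Finset.mem_univ, true_and]; exact ⟨y0, hnt0⟩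
      have h1 : S.card ≤ ∑ v, (ntg G p).degree v := by
        calc S.card = ∑ v ∈ S, 1 := by simp
          _ ≤ ∑ v ∈ S, (ntg G p).degree v := Finset.sum_le_sum hdegS
          _ ≤ ∑ v, (ntg G p).degree v := Finset.sum_le_sum_of_subset (Finset.subset_univ _)
      rw [hsum] at h1
      rw [Finset.card_erase_of_mem hbS]
      have : 1 ≤ S.card := Finset.card_pos.mpr ⟨b, hbS⟩
      omega

end Pool.Agent.V5helper6.Mixed
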